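import Pool.Agent.U534.PrimLog

/-!
# Generalised logarithms of points above almost all points of infinitely many windows, over any countable field

For polynomials `F_a`, `q_a` the primitives `Φ_(a,j)` of `x^j dx / (q_a √F_a)`, `j < deg F_a - 1 + deg q_a`, are integrals
of the three kinds on the curve `C_a : y² = F_a(x)`, with logarithmic poles over the zeros of `q_a`. Up to constants they
are the components of the generalised logarithm of the point `R_x` of the generalised Jacobian `G_a` of `C_a` (an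
extension of the Jacobian by a torus of dimension `deg q_a`) defined by `(x, √F_a(x)) - ∞`. The constants `κ` of the
invariant differentials (`2 j + 2 < deg F_a + 2 deg q_a`) are the values of the primitives at `∞`.

Let `Ξ_0, Ξ_1, …` be any sets of complex numbers such that `Ξ_j` contains algebraic numbers `ξ` of arbitrarily large
absolute value which are roots of integral polynomials of degree at most `m_j` with coefficients at most `|ξ|^(A_j)`; here
the degrees `m_j` and the exponents `A_j` may grow with `j` as fast as one likes. We construct ONE infinite set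
`𝒯 = T_0 ∪ T_1 ∪ ⋯` of algebraic numbers: `T_j` consists of the numbers `ξ + 1, …, ξ + H` for some `ξ ∈ Ξ_j` and some `H`
with the exception of a proportion of at most `1 / (j + 1)`, such that the generalised logarithms, along any paths, of the
points `R_x` for `x` in `𝒯` and the `log x` are asymptotically algebraically independent:

* Let `B` be any countable set of complex numbers, for instance the field generated over the algebraic numbers by all
  periods `Ω_G` of all semi-abelian varieties over number fields. There is such a set `𝒯` with the following property. For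
  every `n` and every nonzero polynomial `P` with coefficients in `B`, of any degree, in the components of `n` generalised
  logarithms there is `k` such that `P` does not vanish at the generalised logarithms of the points over any distinct
  elements `t_1, …, t_n` of `T_k ∪ T_(k + 1) ∪ ⋯`, along any paths.
* Let `V_0 ⊆ V_1 ⊆ ⋯` be any finite dimensional `ℚ`-vector spaces of complex numbers and `δ_0 ≤ δ_1 ≤ ⋯` any integers
  (they may grow as fast as one likes). There is such a set `𝒯` such that for all choices of paths and all `k` the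
  generalised logarithms over all elements of `T_k ∪ T_(k + 1) ∪ ⋯` satisfy no nontrivial polynomial relation in any number
  of variables, of degree at most `δ_k` in each variable, with coefficients in `K V_k`, `K` any number field of degree at
  most `δ_k`.

The library theorem `MP_4b482e_nt.AlgebraicWindows` (`Pool.Agent.Y916.Sl.windowsN`) treats `r` distinct elements of one
short window.
-/

set_option autoImplicit false

open Filter Topology Bornology

namespace Pool.Agent.Results.MP_4b482e_nt.AlmostFullWindows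

/-- The indices `(a, j)`, `j < deg F_a - 1 + deg q_a`, of the differentials. -/
abbrev Idx {s : ℕ} (F q : Fin s → Polynomial ℤ) : Type := Σ a, Fin ((F a).natDegree - 1 + (q a).natDegree)

/-- The plane without the disc of radius `R` and the ray `- u [0, ∞)`. -/
def Domain (u : ℂ) (R : ℝ) : Set ℂ := {x | R < ‖x‖ ∧ x / u ∈ Complex.slitPlane}

/-- On the domain `S_a` is a continuous square root of `F_a` and `Φ_(a,j)` a primitive of `x^j / (q_a S_a)`. -/
def Primitives {s : ℕ} (F q : Fin s → Polynomial ℤ) (u : ℂ) (R : ℝ) (S : Fin s → ℂ → ℂ) (Φ : Idx F q → ℂ → ℂ) : Prop :=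
  ∀ x ∈ Domain u R, (∀ a, ContinuousAt (S a) x ∧ S a x ^ 2 = Polynomial.aeval x (F a)) ∧
    ∀ p : Idx F q, HasDerivAt (Φ p) (x ^ (p.2 : ℕ) / (Polynomial.aeval x (q p.1) * S p.1 x)) x

/-- The numbers `Φ_(a,j)(x)` and `log x`. -/
noncomputable def number {s : ℕ} {F q : Fin s → Polynomial ℤ} (Φ : Idx F q → ℂ → ℂ) (x : ℂ) : Idx F q ⊕ Unit → ℂ
  | Sum.inl p => Φ p x
  | Sum.inr _ => Complex.log x

/-- `Ξ j` contains numbers `ξ` of arbitrarily large absolute value, with `ξ`, `ξ + 1`, … in the domain, which are roots of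
nonzero integral polynomials of degree at most `m j` with coefficients at most `|ξ| ^ (A j)`. -/
def Rich (u : ℂ) (R : ℝ) (m A : ℕ → ℕ) (Ξ : ℕ → Set ℂ) : Prop :=
  ∀ j N : ℕ, ∃ ξ ∈ Ξ j, (N : ℝ) ≤ ‖ξ‖ ∧
    (∃ p : Polynomial ℤ, p ≠ 0 ∧ p.natDegree ≤ m j ∧ (∀ i, |(p.coeff i : ℝ)| ≤ ‖ξ‖ ^ A j) ∧
      Polynomial.aeval ξ p = 0) ∧ ∀ g : ℕ, ξ + g ∈ Domain u R

/-- The finite sets `T j` are disjoint; `T j` contains the points `ξ + 1, …, ξ + H` for some `ξ ∈ Ξ j` and some `H`, up to a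
proportion of at most `1 / (j + 1)`, it has at least `j` elements and they have absolute value at least `j + 1`. -/
def AlmostFull (Ξ : ℕ → Set ℂ) (T : ℕ → Finset ℂ) : Prop :=
  (∀ i j, i ≠ j → Disjoint (T i) (T j)) ∧ ∀ j : ℕ, ∃ ξ ∈ Ξ j, ∃ H : ℕ,
    (∀ t ∈ T j, (j : ℝ) + 1 ≤ ‖t‖ ∧ ∃ g : ℕ, 1 ≤ g ∧ g ≤ H ∧ t = ξ + g) ∧ j ≤ (T j).card ∧ (j + 1) * (H - (T j).card) ≤ H

/-- `y` chooses determinations of the generalised logarithms and logarithms above the elements of the sets `T j`: nonzero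
rational multiples of the `number`s plus rational combinations of `1` and the constants `c` (for instance the periods). -/
def Above {s : ℕ} {F q : Fin s → Polynomial ℤ} (Φ : Idx F q → ℂ → ℂ) {υ : Type} (c : υ → ℂ) (T : ℕ → Finset ℂ)
    (y : ℂ → Idx F q ⊕ Unit → ℂ) : Prop :=
  ∀ j, ∀ t ∈ T j, ∀ p, ∃ b : ℚ, b ≠ 0 ∧ y t p - b * number Φ t p ∈ Submodule.span ℚ (insert 1 (Set.range c))

section proofs

open Pool.Agent.U534.Tens

lemma goodP {s : ℕ} {F q : Fin s → Polynomial ℤ}
    (hsf : ∀ a, Squarefree ((F a * q a).map (Int.castRingHom ℚ))) (hodd : ∀ a, Odd (F a).natDegree)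
    (hdeg : ∀ a, 3 ≤ (F a).natDegree + 2 * (q a).natDegree)
    (hpos : ∀ a, 0 < (F a).leadingCoeff ∧ 0 < (q a).leadingCoeff) (a : Fin s) :
    Pool.Agent.Y916.Sa.GoodP (F a) (q a) := by
  have h := hsf a
  rw [Polynomial.map_mul, squarefree_mul_iff] at h
  exact ⟨h.2.1, hodd a, (hpos a).1, h.2.2, (hpos a).2, h.1.isCoprime, hdeg a⟩

theorem window {s : ℕ} (F q : Fin s → Polynomial ℤ)
    (hsf : ∀ a, Squarefree ((F a * q a).map (Int.castRingHom ℚ))) (hodd : ∀ a, Odd (F a).natDegree)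
    (hdeg : ∀ a, 3 ≤ (F a).natDegree + 2 * (q a).natDegree)
    (hpos : ∀ a, 0 < (F a).leadingCoeff ∧ 0 < (q a).leadingCoeff)
    (hdist : ∀ a b, a ≠ b → ∀ h c₁ c₂ : ℤ, c₁ ≠ 0 → c₂ ≠ 0 →
      Polynomial.C c₁ * F a ≠ Polynomial.C c₂ * (F b).comp (Polynomial.X + Polynomial.C h))
    (u : ℂ) (hu : u ≠ 0) (R : ℝ) (S : Fin s → ℂ → ℂ) (Φ : Idx F q → ℂ → ℂ) (hΦ : Primitives F q u R S Φ) :
    ∃ κ : Idx F q → ℂ,
      (∀ p : Idx F q, 2 * (p.2 : ℕ) + 2 < (F p.1).natDegree + 2 * (q p.1).natDegree →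
        Tendsto (Φ p) (cobounded ℂ ⊓ 𝓟 {x : ℂ | x / u ∈ Complex.slitPlane}) (𝓝 (κ p))) ∧
      ∀ (υ : Type) [Fintype υ] (c : υ → ℂ), Set.range κ ⊆ Set.range c → 2 * Real.pi * Complex.I ∈ Set.range c →
        WinY (σ := Idx F q ⊕ Unit) (fun x => number Φ x) (fun x => x ∈ Domain u R) c := by
  have hG := goodP hsf hodd hdeg hpos
  have hx : ∀ (x : ℂ) i, number Φ x i = Pool.Agent.Y916.Sl.xP F q Φ x i := by
    rintro x (p | w) <;> rfl
  obtain ⟨κ, ⟨R', hκ⟩, h⟩ := Pool.Agent.Y916.Sl.windowsN Pool.Agent.Y916.Sl.tV Pool.Agent.Y916.Sl.tQ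
    Pool.Agent.Y916.Sl.tP F q hG (fun a b hab h c₁ c₂ => hdist a b hab h c₁ c₂) hu (R := R) (S := S) (Φ := Φ)
    (fun x hx1 hx2 => hΦ x ⟨hx1, hx2⟩)
  refine ⟨κ, fun p hp => Pool.Agent.Y916.Sl.limS hG hκ p hp, ?_⟩
  intro υ _ c hc hpi r m A d δ τ
  obtain ⟨E, hE⟩ := h υ c hc hpi r m A d δ τ
  refine ⟨E, fun H ξ hξ hp w => ?_⟩
  obtain ⟨T, hT, h1⟩ := hE H ξ hξ hp w
  refine ⟨T, hT, fun n hn hnb K hK hKd y hy P hP hP0 => ?_⟩
  simp only [hx] at hy
  exact h1 n hn hnb K hK hKd y hy P hP hP0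

end proofs

/-- **Main result.** Let `F_a`, `q_a` be integral polynomials with positive leading coefficients such that `F_a q_a` is
squarefree, `deg F_a` is odd, `deg F_a + 2 deg q_a ≥ 3` and no `F_a` is proportional to an integral translate of another
`F_b`, and let `Φ` be primitives of the differentials `x^j dx / (q_a √F_a)` on a domain as above. There are numbers `κ`,
equal to the limits at infinity of the primitives which converge, such that for every finite family `c` of numbers which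
contains all the `κ` and `2πi` (for instance, also all the periods) the two assertions of the introduction hold. -/
theorem result {s : ℕ} (F q : Fin s → Polynomial ℤ)
    (hsf : ∀ a, Squarefree ((F a * q a).map (Int.castRingHom ℚ))) (hodd : ∀ a, Odd (F a).natDegree)
    (hdeg : ∀ a, 3 ≤ (F a).natDegree + 2 * (q a).natDegree)
    (hpos : ∀ a, 0 < (F a).leadingCoeff ∧ 0 < (q a).leadingCoeff)
    (hdist : ∀ a b, a ≠ b → ∀ h c₁ c₂ : ℤ, c₁ ≠ 0 → c₂ ≠ 0 →
      Polynomial.C c₁ * F a ≠ Polynomial.C c₂ * (F b).comp (Polynomial.X + Polynomial.C h))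
    (u : ℂ) (hu : u ≠ 0) (R : ℝ) (S : Fin s → ℂ → ℂ) (Φ : Idx F q → ℂ → ℂ) (hΦ : Primitives F q u R S Φ) :
    ∃ κ : Idx F q → ℂ,
      (∀ p : Idx F q, 2 * (p.2 : ℕ) + 2 < (F p.1).natDegree + 2 * (q p.1).natDegree →
        Tendsto (Φ p) (cobounded ℂ ⊓ 𝓟 {x : ℂ | x / u ∈ Complex.slitPlane}) (𝓝 (κ p))) ∧
      ∀ (υ : Type) [Fintype υ] (c : υ → ℂ), Set.range κ ⊆ Set.range c → 2 * Real.pi * Complex.I ∈ Set.range c →
      ∀ (m A : ℕ → ℕ) (Ξ : ℕ → Set ℂ), Rich u R m A Ξ →
      -- all polynomials over a countable set of constants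
      (∀ B : Set ℂ, B.Countable → ∃ T : ℕ → Finset ℂ, AlmostFull Ξ T ∧ (∀ j, ∀ t ∈ T j, t ∈ Domain u R) ∧
        ∀ (n : ℕ) (P : MvPolynomial (Fin n × (Idx F q ⊕ Unit)) ℂ), P ≠ 0 → (∀ e, P.coeff e ∈ B) → ∃ k : ℕ,
          ∀ y : ℂ → Idx F q ⊕ Unit → ℂ, Above Φ c T y → ∀ t : Fin n → ℂ, Function.Injective t →
            (∀ i, ∃ j ≥ k, t i ∈ T j) → MvPolynomial.eval (fun v => y (t v.1) v.2) P ≠ 0) ∧
      -- given degrees and constants
      ∀ V : ℕ → Submodule ℚ ℂ, (∀ j, Module.Finite ℚ (V j)) → Monotone V → ∀ δ : ℕ → ℕ, Monotone δ →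
        ∃ T : ℕ → Finset ℂ, AlmostFull Ξ T ∧ (∀ j, ∀ t ∈ T j, t ∈ Domain u R) ∧
        ∀ y : ℂ → Idx F q ⊕ Unit → ℂ, Above Φ c T y →
        ∀ (k : ℕ) (K : IntermediateField ℚ ℂ), FiniteDimensional ℚ K → Module.finrank ℚ K ≤ δ k →
        ∀ P : MvPolynomial (ℂ × (Idx F q ⊕ Unit)) ℂ, P ≠ 0 → (∀ v ∈ P.vars, ∃ j ≥ k, v.1 ∈ T j) →
          (∀ v, P.degreeOf v ≤ δ k) → (∀ e, P.coeff e ∈ Submodule.span K (V k : Set ℂ)) →
          MvPolynomial.eval (fun v => y v.1 v.2) P ≠ 0 := by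
  classical
  obtain ⟨κ, hκ, hw⟩ := window F q hsf hodd hdeg hpos hdist u hu R S Φ hΦ
  refine ⟨κ, hκ, fun υ _ c hc hpi m A Ξ hΞ => ?_⟩
  have hW := hw υ c hc hpi
  refine ⟨fun B hB => ?_, fun V hVf hV δ hδ => ?_⟩
  · obtain ⟨T, ⟨hT, hTD⟩, h⟩ := Pool.Agent.U534.Tens.countable_form
      (G := fun T => Pool.Agent.U534.Tens.FullC Ξ T ∧ ∀ j, ∀ t ∈ T j, t ∈ Domain u R)
      (fun V hVf hV δ hδ => Pool.Agent.U534.Tens.genlogD hW (m := m) (A := A) hΞ hVf hV hδ) B hB
    refine ⟨T, hT, hTD, fun n P hP hPc => ?_⟩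
    obtain ⟨k, hk⟩ := h n P hP hPc
    exact ⟨k, fun y hy t ht htT => hk y (fun j t ht => ⟨hTD j t ht, hy j t ht⟩) t ht htT⟩
  · obtain ⟨T, ⟨hT, hTD⟩, h⟩ := Pool.Agent.U534.Tens.genlogD hW (m := m) (A := A) hΞ hVf hV hδ
    exact ⟨T, hT, hTD, fun y hy => h y (fun j t ht => ⟨hTD j t ht, hy j t ht⟩)⟩

end Pool.Agent.Results.MP_4b482e_nt.AlmostFullWindows
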