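import Pool.Agent.U513.AP.IntTuples
import Pool.Agent.U951.TR.PolyLogE

/-!
# Exponentials of polynomials in logarithms of quotients, at all simultaneous approximations

Let `x_1, …, x_n` be positive rational numbers and `Q_1, …, Q_M` real polynomials such that no nontrivial integer combination
of `s, Q_1, …, Q_M` is constant. The starting file `PolynomialsInLogs` bounds the number of `x` for which `π`, the `log x_j` and
the `exp (Q_k (log x_j))` have a (approximate) relation of bounded degree. Here the `x_j` are quotients of integral affine forms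
with independent linear parts at the simultaneous approximations `(k, u)` of a point `α`: for all `α` outside of a set of
Hausdorff dimension at most `(d + 1 - c) / (1 + τ)` there is no such relation for ANY such forms, at ANY approximation with
large `k`.
-/

set_option autoImplicit false

open Filter MeasureTheory Topology
open scoped ENNReal

namespace Pool.Agent.Results.MP_4b482e_nt.Approximations

open Pool.Agent.U513.AP (first int_law count_first null_of_dim)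
open Pool.Agent.U951.TR.Frac (quot height Bad)
open Pool.Agent.U951.TR.PLog (Rel cn cn_pos input)
open Pool.Agent.Results.MP_4b482e_nt.PolynomialsInLogs (numbers)

/-- Let `w_0, …, w_(2n-1)` be integers, `H` the largest `|w_i|`, `x_j = w_(2j) / w_(2j+1)`. If the `w_(2j+1)` are not `0` and the
`x_j` are in `[1 / m, m]`, every nonzero integral polynomial of degree at most `D` in each variable with coefficients of absolute
value at most `H ^ A` takes at `π`, the `log x_j` and the `exp (Q_k (log x_j))` a value of absolute value greater than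
`H ^ (-B)`. -/
def Free {n M : ℕ} (Q : Fin M → Polynomial ℝ) (D m A : ℕ) (B : ℝ) (w : Fin (n * 2) → ℤ) : Prop :=
  (∀ j : Fin n, w (finProdFinEquiv (j, 1)) ≠ 0) →
    (∀ j : Fin n, 1 / (m : ℝ) ≤ quot w j ∧ (quot w j : ℝ) ≤ m) →
      ∀ P : MvPolynomial (Option (Fin n × Option (Fin M))) ℤ, P ≠ 0 → (∀ i, P.degreeOf i ≤ D) →
        (∀ e, |((P.coeff e : ℤ) : ℝ)| ≤ (height w : ℝ) ^ A) →
          (height w : ℝ) ^ (-B) < |MvPolynomial.aeval (numbers Q (quot w)) P|

theorem result (M n D : ℕ) (hn : 1 ≤ n) (Q : Fin M → Polynomial ℝ)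
    (hQ : ∀ (c0 : ℤ) (c : Fin M → ℤ),
      (Polynomial.C (c0 : ℝ) * Polynomial.X + ∑ k, Polynomial.C (c k : ℝ) * Q k).natDegree = 0 → c0 = 0 ∧ c = 0) :
    ∃ B : ℕ → ℕ → ℝ, ∀ (d : ℕ) (hd : n * 2 ≤ d + 1) (τ : ℝ), 0 ≤ τ → ∀ γ : Fin d → ℝ,
      ∃ E : Set (Fin d → ℝ),
        dimH E ≤ ENNReal.ofReal ((d + 1 - 1 / (((n : ℝ) + 1) * (((D : ℝ) + 1) ^ ((M + 1) * n + 1) + 1))) / (1 + τ)) ∧
        (1 - 1 / (((n : ℝ) + 1) * (((D : ℝ) + 1) ^ ((M + 1) * n + 1) + 1)) < d * τ → volume E = 0) ∧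
        ∀ α, α ∉ E → ∀ G : Matrix (Fin (d + 1)) (Fin (d + 1)) ℤ, G.det ≠ 0 → ∀ (c : Fin (d + 1) → ℤ) (m A : ℕ), 2 ≤ m →
          ∀ᶠ k : ℕ in atTop, ∀ u : Fin d → ℤ, (∀ i, |(k : ℝ) * α i - γ i - u i| ≤ (k : ℝ) ^ (-τ)) →
            Free Q D m A (B m A) (fun i => (G.mulVec (Fin.cons (k : ℤ) u) + c) (Fin.castLE hd i)) := by
  classical
  have key : ∀ m A : ℕ, ∃ B C : ℝ, 2 ≤ m →
      ∀ T : ℕ, 1 ≤ T → ({α : Fin (n * 2) → ℤ | (∀ i, |α i| ≤ (T : ℤ)) ∧ α ∈ Bad (Rel n Q D) (1 / (m : ℝ)) m A B}.ncard : ℝ) ≤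
        C * (T : ℝ) ^ (((n * 2 : ℕ) : ℝ) - cn n M D) := by
    intro m A
    by_cases hm : 2 ≤ m
    · have hm' : (2 : ℝ) ≤ m := by exact_mod_cast hm
      have h1 : 1 / (m : ℝ) < m := by
        rw [div_lt_iff₀ (by linarith)]
        nlinarith
      obtain ⟨B, C, -, h2, -⟩ := input hn D Q hQ (a := 1 / (m : ℝ)) (b := m) (A := A) (by positivity) h1 (Nat.cast_nonneg _)
      exact ⟨B, C, fun _ => h2⟩
    · exact ⟨0, 0, fun h => absurd h hm⟩
  choose B C hBC using key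
  refine ⟨B, fun d hd τ hτ γ => ?_⟩
  have hcn : cn n M D = 1 / (((n : ℝ) + 1) * (((D : ℝ) + 1) ^ ((M + 1) * n + 1) + 1)) := rfl
  rw [← hcn]
  have hc1 : cn n M D ≤ 1 := by
    rw [hcn, div_le_one (by positivity)]
    have h1 : (1 : ℝ) ≤ (n : ℝ) + 1 := by linarith [(Nat.cast_nonneg n : (0 : ℝ) ≤ n)]
    have h2 : (1 : ℝ) ≤ ((D : ℝ) + 1) ^ ((M + 1) * n + 1) + 1 := by
      have : (0 : ℝ) ≤ ((D : ℝ) + 1) ^ ((M + 1) * n + 1) := by positivity
      linarith
    nlinarith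
  haveI : Countable (Matrix (Fin (d + 1)) (Fin (d + 1)) ℤ) :=
    inferInstanceAs (Countable (Fin (d + 1) → Fin (d + 1) → ℤ))
  have ha : 0 ≤ (d : ℝ) + 1 - cn n M D := by
    have : (0 : ℝ) ≤ d := Nat.cast_nonneg _
    linarith
  obtain ⟨E, hE, h⟩ := int_law (d := d) ha
    (ι := {G : Matrix (Fin (d + 1)) (Fin (d + 1)) ℤ // G.det ≠ 0} × (Fin (d + 1) → ℤ) × {m : ℕ // 2 ≤ m} × ℕ)
    (fun i s => first hd i.1.1 i.2.1 s ∈ Bad (Rel n Q D) (1 / ((i.2.2.1.1 : ℕ) : ℝ)) (i.2.2.1.1 : ℕ) i.2.2.2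
      (B i.2.2.1.1 i.2.2.2))
    (fun i => count_first hd (hBC i.2.2.1.1 i.2.2.2 i.2.2.1.2) i.1.1 i.1.2 i.2.1) hτ γ
  refine ⟨E, hE, fun hlt => ?_, ?_⟩
  · have hd1 : 1 ≤ d := by omega
    refine null_of_dim hd1 hE ?_
    rw [div_lt_iff₀ (by linarith)]
    linarith
  · intro α hα G hG c m A hm
    filter_upwards [h α hα (⟨G, hG⟩, c, ⟨m, hm⟩, A)] with k hk u hu
    intro h1 h2 P hP hdeg hcoeff
    by_contra hcon
    rw [not_lt] at hcon
    exact hk u hu ⟨h1, h2, P, hP, hdeg, fun e => by rw [Real.rpow_natCast]; exact hcoeff e, hcon⟩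

end Pool.Agent.Results.MP_4b482e_nt.Approximations
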