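import Pool.Agent.U536.CF.TN
import Pool.Agent.U951.TR.PolyLogE

/-!
# Exponentials of polynomials in logarithms of all fractions near tuples with large common factors with the values of
# multiplicative functions

Let `Q_1, …, Q_M` be polynomials in one variable `s` with real coefficients such that no nontrivial integer combination of
`s, Q_1, …, Q_M` is constant, and let `F_0, F_1, …` be `2 n` positive multiplicative functions of at most polynomial growth such
that `F_i p ≤ M' p` for the large primes `p`, with different values at different large primes; for example Euler's function or the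
sum of the divisors. Let `b₁ < 1` and `0 ≤ c₁ < 2 b₁ - 1`. For all tuples `t` in `[1, N]^(2 n)` but `N^(2 n) exp (-(log N)^c₁)`,
for EVERY tuple `w` of `2 n` integers `w_i ≥ exp ((log N)^b₁)` with `gcd(w_i, F_i(t_i)) ≥ w_l^ρ` for all `i`, `l` (for example all
the large divisors of comparable size, and their multiples by small integers), and for ALL tuples `α_i = u_i w_i + v_i` with
`u_i ≠ 0`, `|u_i|, |v_i| ≤ w_l^η` for some `l`: if the fractions `x_j = α_(2j) / α_(2j+1)` are in `[a, b]`, `a > 0`, then every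
nonzero integral polynomial of degree at most `d` in each variable with coefficients of absolute value at most `H ^ A`,
`H = max |α_i|`, takes at the `n (M + 1) + 1` numbers `π`, `log x_j` and `exp (Q_k (log x_j))` (for instance `x ^ (log x)`) a value
of absolute value larger than `H ^ (-B)`. For the torus `G = G_m^s` the problem asks for such independence.

Proof. The starting theorem `PolynomialsInLogs` counts the exceptional tuples of rational numbers with denominators at most `T`,
for polynomials whose heights are bounded in terms of `T`. This gives a bound for the number of the tuples of integers of absolute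
value `≤ X`, not in lowest terms, whose quotients are exceptional for the heights belonging to their own largest entry
(`Pool.Agent.U951.TR.Frac`: common divisors, and counting by halves). The divisors of the values of the `F_i` are treated by
the tool `Pool.Agent.U536.CF` of helper536 (the part of `t` with few prime factors, Hölder's inequality for the divisor function).
-/

set_option autoImplicit false

namespace Pool.Agent.Results.MP_4b482e_nt.CommonFactors

open Pool.Agent.N733.TG (LM lm_totient lm_sigma)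
open Pool.Agent.U536.CF (CommonT common_near commonT_of_dvd)
open Pool.Agent.Results.MP_4b482e_nt.PolynomialsInLogs (numbers)

/-- the fractions `α_0 / α_1`, `α_2 / α_3`, … -/
noncomputable def frac {n : ℕ} (α : Fin (n * 2) → ℤ) (j : Fin n) : ℚ :=
  (α (finProdFinEquiv (j, 0)) : ℚ) / (α (finProdFinEquiv (j, 1)) : ℚ)

/-- the largest absolute value of the entries -/
def H {k : ℕ} (α : Fin k → ℤ) : ℕ := Finset.univ.sup fun i => (α i).natAbs

/-- If the fractions `x_j` of `α` are in `[a, b]`, then every nonzero polynomial in `n (M + 1) + 1` variables of degree at most `d`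
in each variable with integer coefficients of absolute value at most `H ^ A` takes at `π`, `log x_j`, `exp (Q_k (log x_j))` a value
of absolute value larger than `H ^ (-B)`. -/
def Free {n M : ℕ} (Q : Fin M → Polynomial ℝ) (d : ℕ) (a b A B : ℝ) (α : Fin (n * 2) → ℤ) : Prop :=
  (∀ j, a ≤ frac α j ∧ frac α j ≤ b) → ∀ P : MvPolynomial (Option (Fin n × Option (Fin M))) ℤ, P ≠ 0 →
    (∀ i, P.degreeOf i ≤ d) → (∀ s, |((P.coeff s : ℤ) : ℝ)| ≤ (H α : ℝ) ^ A) →
      (H α : ℝ) ^ (-B) < |MvPolynomial.aeval (numbers Q (frac α)) P|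

/-- **Theorem.** Let `[a, b] ⊂ (0, ∞)`, `n ≥ 1`, `d`, `A ≥ 0`, and let `Q_1, …, Q_M` be real polynomials in `s` such that
`c_0 s + ∑ c_k Q_k` is not constant for integers `c_0, …, c_M` not all zero. There are `B`, `η > 0` and `0 < ρ < 1` such that for
all families `F` of `2 n` functions with `LM`, `b₁ < 1`, `0 ≤ c₁ < 2 b₁ - 1` and all large `N`, for all `t` in `[1, N]^(2 n)` but
`N^(2 n) exp (-(log N)^c₁)` and for EVERY tuple `w` of `2 n` integers `w_i ≥ exp ((log N)^b₁)` with `gcd(w_i, F_i(t_i)) ≥ w_l^ρ` for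
all `i`, `l`, ALL tuples `u_i w_i + v_i` with `u_i ≠ 0`, `|u_i|, |v_i| ≤ w_l^η` for some `l` are free. Tuples of divisors
`w_i ≥ exp ((log N)^b)` of the `F_i(t_i)` with `w_l^ρ ≤ w_i` for all `i`, `l` are such tuples `w`. Euler's function and the sum of
the divisors are examples of the `F_i`. -/
theorem result :
    (∀ (n M d : ℕ), 1 ≤ n → ∀ Q : Fin M → Polynomial ℝ,
      (∀ (c0 : ℤ) (c : Fin M → ℤ),
        (Polynomial.C (c0 : ℝ) * Polynomial.X + ∑ k, Polynomial.C (c k : ℝ) * Q k).natDegree = 0 → c0 = 0 ∧ c = 0) →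
      ∀ a b A : ℝ, 0 < a → a < b → 0 ≤ A → ∃ B η ρ : ℝ, 0 < η ∧ 0 < ρ ∧ ρ < 1 ∧
      ∀ F : Fin (n * 2) → ℕ → ℕ, (∀ i, LM (F i)) → ∀ b₁ c₁ : ℝ, b₁ < 1 → 0 ≤ c₁ → c₁ < 2 * b₁ - 1 →
        ∃ N₀ : ℕ, ∀ N : ℕ, N₀ ≤ N →
          ({t : Fin (n * 2) → ℕ | (∀ i, 1 ≤ t i ∧ t i ≤ N) ∧ ¬ ∀ w : Fin (n * 2) → ℕ, CommonT F b₁ ρ N t w →
            ∀ u v : Fin (n * 2) → ℤ, (∃ l, ∀ i, u i ≠ 0 ∧ |(u i : ℝ)| ≤ (w l : ℝ) ^ η ∧ |(v i : ℝ)| ≤ (w l : ℝ) ^ η) →
              Free Q d a b A B (fun i => u i * (w i : ℤ) + v i)}.ncard : ℝ) ≤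
            (N : ℝ) ^ (n * 2) * Real.exp (-(Real.log N ^ c₁))) ∧
    (LM Nat.totient ∧ LM (fun m => ∑ d ∈ m.divisors, d)) ∧
    ∀ (k : ℕ) (F : Fin k → ℕ → ℕ) (b ρ : ℝ) (N : ℕ) (t w : Fin k → ℕ), (∀ i, Real.exp (Real.log N ^ b) ≤ (w i : ℝ)) →
      (∀ i, w i ∣ F i (t i)) → (∀ i j, (w j : ℝ) ^ ρ ≤ (w i : ℝ)) → CommonT F b ρ N t w := by
  refine ⟨?_, ⟨lm_totient, lm_sigma⟩, fun k F b ρ N t w h1 h2 h3 => commonT_of_dvd h1 h2 h3⟩
  intro n M d hn Q hQ a b A ha hab hA
  obtain ⟨B, C, -, h, -⟩ := Pool.Agent.U951.TR.PLog.input hn d Q hQ ha hab hA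
  have hk : 1 ≤ n * 2 := by omega
  obtain ⟨η, ρ, hη, hρ0, hρ1, hF⟩ := common_near hk (Pool.Agent.U951.TR.PLog.cn_pos n M d)
  refine ⟨B, η, ρ, hη, hρ0, hρ1, fun F hLM b₁ c₁ hb₁ hc₁ hcb => ?_⟩
  obtain ⟨N₀, hN₀⟩ := hF F hLM C b₁ c₁ hb₁ hc₁ hcb
  refine ⟨N₀, fun N hN => ?_⟩
  refine le_trans ?_ (hN₀ N hN _ h)
  refine Nat.cast_le.2 (Set.ncard_le_ncard ?_ ?_)
  · rintro t ⟨ht, hnot⟩
    refine ⟨ht, fun hall => hnot fun w hw u v huv => ?_⟩
    by_contra hcon
    refine hall w hw u v huv ?_
    unfold Free at hcon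
    push Not at hcon
    obtain ⟨h1, P, h2, h3, h4, h5⟩ := hcon
    refine ⟨fun j hj => ?_, h1, P, h2, h3, h4, h5⟩
    have h6 := (h1 j).1
    have h7 : frac (fun i => u i * (w i : ℤ) + v i) j = 0 := by
      unfold frac
      rw [hj, Int.cast_zero, div_zero]
    rw [h7, Rat.cast_zero] at h6
    linarith
  · apply (Set.Finite.pi' fun _ : Fin (n * 2) => Set.finite_Icc 1 N).subset
    rintro t ⟨ht, -⟩ i
    exact ht i

end Pool.Agent.Results.MP_4b482e_nt.CommonFactors
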