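import Pool.Agent.U405.RS.G5
import Pool.Agent.U951.TR.PolyLogE

/-!
# Exponentials of polynomials in logarithms of fractions of values of multiplicative functions over thin sets

Let `Q_1, …, Q_M` be polynomials in one variable `s` with real coefficients such that no nontrivial integer combination of
`s, Q_1, …, Q_M` is constant, and let `F_0, F_1, …` be `2 n` positive multiplicative functions of at most polynomial growth which
for each `a ≥ 1` are injective at the powers `p ^ a` of the large primes and at most `M' p ^ a` there; for example Euler's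
function or the sum of the divisors. We show: for almost all tuples in a product of `2 n` thin sets (shifted primes `p + a_i`,
`p ≤ x`, or intervals `(u, u + h]`, `x^τ ≤ h ≤ x`) and the fractions `x_j = F_(2j)(m_(2j)) / F_(2j+1)(m_(2j+1))`, for instance
`x = φ(p - 1) / σ(p' + 2)` with primes `p`, `p'`: if the `x_j` are in `[a, b]`, `a > 0`, then the `n (M + 1) + 1` numbers `π`,
`log x_j` and `exp (Q_k (log x_j))` (for instance `x ^ (log x)`) satisfy no polynomial relation, not even approximately, of degree
at most `d` in each variable with coefficients of absolute value at most `H ^ A`, where `H` is the largest of the numerators and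
denominators `F_i(m_i)`: the value is larger than `H ^ (-B)`. For the torus `G = G_m^s` the problem asks for such independence.

Proof. The starting theorem `PolynomialsInLogs` counts the exceptional tuples of rational numbers with denominators at most `T`,
for polynomials whose heights are bounded in terms of `T`. This gives a bound for the number of the tuples of natural numbers
`≤ X`, not in lowest terms, whose quotients are exceptional for the heights belonging to their own largest entry
(`Pool.Agent.U951.TR.Frac`: common divisors, and counting by halves). The tuples `F_i(m_i)` are taken with large and uneven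
multiplicities, so that the size of the exceptional set says nothing about them; they are treated by the tool
`Pool.Agent.U405.RS` of helper405 (a thin set has few multiples of each `n ≤ x^δ`, Rankin's method, fibres over slabs).
-/

set_option autoImplicit false

namespace Pool.Agent.Results.MP_4b482e_nt.ThinTuples

open Pool.Agent.U405.RS
open Pool.Agent.Results.MP_4b482e_nt.PolynomialsInLogs (numbers)

/-- the fractions `w_0 / w_1`, `w_2 / w_3`, … -/
noncomputable def frac {n : ℕ} (w : Fin (n * 2) → ℕ) (j : Fin n) : ℚ :=
  (w (finProdFinEquiv (j, 0)) : ℚ) / (w (finProdFinEquiv (j, 1)) : ℚ)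

/-- the largest entry -/
def H {k : ℕ} (w : Fin k → ℕ) : ℕ := Finset.univ.sup w

/-- If the fractions `x_j` of `w` are in `[a, b]`, then every nonzero polynomial in `n (M + 1) + 1` variables of degree at most `d`
in each variable with integer coefficients of absolute value at most `H ^ A` takes at `π`, `log x_j`, `exp (Q_k (log x_j))` a value
of absolute value larger than `H ^ (-B)`. -/
def Free {n M : ℕ} (Q : Fin M → Polynomial ℝ) (d : ℕ) (a b A B : ℝ) (w : Fin (n * 2) → ℕ) : Prop :=
  (∀ j, a ≤ frac w j ∧ frac w j ≤ b) → ∀ P : MvPolynomial (Option (Fin n × Option (Fin M))) ℤ, P ≠ 0 →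
    (∀ i, P.degreeOf i ≤ d) → (∀ s, |((P.coeff s : ℤ) : ℝ)| ≤ (H w : ℝ) ^ A) →
      (H w : ℝ) ^ (-B) < |MvPolynomial.aeval (numbers Q (frac w)) P|

/-- **Theorem.** Let `[a, b] ⊂ (0, ∞)`, `n ≥ 1`, `d`, `A ≥ 0`, and let `Q_1, …, Q_M` be real polynomials in `s` such that
`c_0 s + ∑ c_k Q_k` is not constant for integers `c_0, …, c_M` not all zero. There is `B` such that for all families `F` of `2 n`
functions in the class `PM` and all `U`, with `c = 1 / ((n + 1) ((d + 1)^((M + 1) n + 1) + 1))`, in the sense of `ThinAll c F U`
(with a saving of `(log x)^U`, for almost all `m` in all products of `2 n` sets, each one the set of the shifted primes `p + a_i`,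
`p ≤ x`, or an interval `(u, u + h]`, `u ≤ x`, `x^τ ≤ h ≤ x`, whenever `0 < τ ≤ 1`, `2 n τ > 2 n - c`): all `F_i(m_i)` are at
least `2` and the tuple of the `F_i(m_i)` is free. Euler's function, the sum of the divisors and the identity are in the class. -/
theorem result :
    (∀ (n M d : ℕ), 1 ≤ n → ∀ Q : Fin M → Polynomial ℝ,
      (∀ (c0 : ℤ) (c : Fin M → ℤ),
        (Polynomial.C (c0 : ℝ) * Polynomial.X + ∑ k, Polynomial.C (c k : ℝ) * Q k).natDegree = 0 → c0 = 0 ∧ c = 0) →
      ∀ a b A : ℝ, 0 < a → a < b → 0 ≤ A → ∃ B : ℝ,
      ∀ F : Fin (n * 2) → ℕ → ℕ, (∀ i, PM (F i)) → ∀ U : ℕ,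
        ThinAll (1 / (((n : ℝ) + 1) * (((d : ℝ) + 1) ^ ((M + 1) * n + 1) + 1))) F U
          (fun (_ : Unit) (w : Fin (n * 2) → ℕ) => (∀ i, 2 ≤ w i) ∧ Free Q d a b A B w)) ∧
    (PM Nat.totient ∧ PM (fun m => ∑ d ∈ m.divisors, d) ∧ PM (fun m => m)) := by
  refine ⟨fun n M d hn Q hQ a b A ha hab hA => ?_, examplesT⟩
  obtain ⟨B, C, -, -, h⟩ := Pool.Agent.U951.TR.PLog.input hn d Q hQ ha hab hA
  refine ⟨B, fun F hF U => thinAll_two (by omega) hF (Pool.Agent.U951.TR.PLog.cn_pos n M d) C
    (fun (_ : Unit) (w : Fin (n * 2) → ℕ) => Free Q d a b A B w) (fun _ X hX => ?_) U⟩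
  refine le_trans (Nat.cast_le.2 (Set.ncard_le_ncard ?_ ?_)) (h X hX 2)
  · rintro w ⟨hw, hnot⟩
    refine ⟨hw, fun j => ?_, ?_⟩
    · have := (hw (finProdFinEquiv (j, 1))).1
      have h0 : w (finProdFinEquiv (j, 1)) ≠ 0 := by omega
      show ((w (finProdFinEquiv (j, 1)) : ℕ) : ℤ) ≠ 0
      exact_mod_cast h0
    · have hq : Pool.Agent.U951.TR.Frac.quot (fun i => (w i : ℤ)) = frac w := by
        funext j
        simp only [Pool.Agent.U951.TR.Frac.quot, frac, Int.cast_natCast]
      have hH : Pool.Agent.U951.TR.Frac.height (fun i => (w i : ℤ)) = H w := by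
        simp only [Pool.Agent.U951.TR.Frac.height, H, Int.natAbs_natCast]
      rw [hq, hH]
      unfold Free at hnot
      push Not at hnot
      obtain ⟨h1, P, h2, h3, h4, h5⟩ := hnot
      exact ⟨h1, P, h2, h3, h4, h5⟩
  · apply (Set.Finite.pi' fun _ : Fin (n * 2) => Set.finite_Icc 0 X).subset
    rintro w ⟨hw, -⟩ i
    exact ⟨Nat.zero_le _, (hw i).2⟩

end Pool.Agent.Results.MP_4b482e_nt.ThinTuples
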